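import Mathlib

/-!
# Strong colourings of the configurations without blocking sets (MP_cb5629_co, Q1, partial)

A cubic structure is a map `pt : L → Fin 3 → P`, where `pt l i` is the `i`-th point of the line `l`
(a point may be repeated on a line). The class `Built` is generated by the triple edge (one point,
one line), the Fano plane, the star product and the ring of three structures. No member of the
class has a weak colouring by two colours, and no member has a strong colouring by five colours.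
So no symmetric configuration `v₃` with a component of the class has the pair (5, 3) of chromatic
numbers: its strong chromatic number is at least 6.

The induction runs on the following property `Key`: if all lines but one are coloured by three
distinct ones of five colours, then the three points of the last line have the same colour. It
follows that five colours are not enough even after a point is deleted (`point_deleted`).
-/

set_option autoImplicit false

namespace Pool.Agent.Results.MP_cb5629_co.FanoTrees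

open Function

/-- the line `l` has all its points in one colour -/
def Mono {P L C : Type} (pt : L → Fin 3 → P) (c : P → C) (l : L) : Prop :=
  ∀ i j, c (pt l i) = c (pt l j)

/-- the three points of the line `l` have distinct colours -/
def Rainbow {P L C : Type} (pt : L → Fin 3 → P) (c : P → C) (l : L) : Prop :=
  ∀ i j, i ≠ j → c (pt l i) ≠ c (pt l j)

open Classical in
/-- the star product: the line `m` of the first structure and the point `p` of the second one are
deleted, and the three lines through `p` get the three points of `m`, according to `σ` -/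
noncomputable def starPt {P₁ L₁ P₂ L₂ : Type} (pt₁ : L₁ → Fin 3 → P₁) (pt₂ : L₂ → Fin 3 → P₂)
    (m : L₁) (p : P₂) (σ : {x : L₂ × Fin 3 // pt₂ x.1 x.2 = p} → Fin 3) :
    ({l : L₁ // l ≠ m} ⊕ L₂) → Fin 3 → (P₁ ⊕ {x : P₂ // x ≠ p})
  | Sum.inl l, i => Sum.inl (pt₁ l.1 i)
  | Sum.inr l, i => if h : pt₂ l i = p then Sum.inl (pt₁ m (σ ⟨(l, i), h⟩))
      else Sum.inr ⟨pt₂ l i, h⟩

open Classical in
/-- the ring of three structures: in each of them the incidence of the line `y k` with its point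
number `s k` is deleted, and the line `y k` gets the point released in the next structure -/
noncomputable def ringPt (P L : Fin 3 → Type) (pt : ∀ k, L k → Fin 3 → P k) (y : ∀ k, L k)
    (s : Fin 3 → Fin 3) : (Σ k, L k) → Fin 3 → (Σ k, P k) := fun a i =>
  if a.2 = y a.1 ∧ i = s a.1 then ⟨a.1 + 1, pt (a.1 + 1) (y (a.1 + 1)) (s (a.1 + 1))⟩
  else ⟨a.1, pt a.1 a.2 i⟩

/-- the class generated by the triple edge and the Fano plane -/
inductive Built : (P L : Type) → (L → Fin 3 → P) → Prop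
  | theta : Built Unit Unit (fun _ _ => ())
  | fano : Built (ZMod 7) (ZMod 7) (fun l i => l + ![0, 1, 3] i)
  | star (P₁ L₁ P₂ L₂ : Type) (pt₁ : L₁ → Fin 3 → P₁) (pt₂ : L₂ → Fin 3 → P₂) (m : L₁) (p : P₂)
      (σ : {x : L₂ × Fin 3 // pt₂ x.1 x.2 = p} → Fin 3) (hσ : Bijective σ)
      (hp : ∀ l i j, pt₂ l i = p → pt₂ l j = p → i = j)
      (h₁ : Built P₁ L₁ pt₁) (h₂ : Built P₂ L₂ pt₂) :
      Built (P₁ ⊕ {x : P₂ // x ≠ p}) ({l : L₁ // l ≠ m} ⊕ L₂) (starPt pt₁ pt₂ m p σ)
  | ring (P L : Fin 3 → Type) (pt : ∀ k, L k → Fin 3 → P k) (y : ∀ k, L k) (s : Fin 3 → Fin 3)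
      (h : ∀ k, Built (P k) (L k) (pt k)) : Built (Σ k, P k) (Σ k, L k) (ringPt P L pt y s)
  | iso (P L P' L' : Type) (pt : L → Fin 3 → P) (e : P ≃ P') (f : L' ≃ L)
      (g : L' → Equiv.Perm (Fin 3)) (h : Built P L pt) :
      Built P' L' (fun l i => e (pt (f l) (g l i)))

/-- the property of line-deleted strong colourings with five colours -/
def Key {P L : Type} (pt : L → Fin 3 → P) : Prop :=
  ∀ (c : P → Fin 5) (m : L), (∀ l, l ≠ m → Rainbow pt c l) → Mono pt c m

lemma five (o : Fin 4 → Fin 5) (ho : Injective o) (x y : Fin 5) (hx : ∀ i, x ≠ o i)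
    (hy : ∀ i, y ≠ o i) : x = y := by
  have h : (Finset.univ.image o)ᶜ.card = 1 := by
    rw [Finset.card_compl, Finset.card_image_of_injective _ ho]
    simp
  rw [Finset.card_eq_one] at h
  obtain ⟨a, ha⟩ := h
  have h1 : x ∈ (Finset.univ.image o)ᶜ := by
    simp only [Finset.mem_compl, Finset.mem_image, Finset.mem_univ, true_and, not_exists]
    intro i hi
    exact hx i hi.symm
  have h2 : y ∈ (Finset.univ.image o)ᶜ := by
    simp only [Finset.mem_compl, Finset.mem_image, Finset.mem_univ, true_and, not_exists]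
    intro i hi
    exact hy i hi.symm
  rw [ha, Finset.mem_singleton] at h1 h2
  rw [h1, h2]

lemma fano_pairs : ∀ a b : ZMod 7, a ≠ b → (a = 2 ∨ a = 4 ∨ a = 5 ∨ a = 6) →
    ∃ d : ZMod 7, d ≠ 0 ∧ ∃ i j : Fin 3, i ≠ j ∧ a = d + ![0, 1, 3] i ∧ b = d + ![0, 1, 3] j := by
  decide

lemma fano_key : Key (fun (l : ZMod 7) (i : Fin 3) => l + (![0, 1, 3] : Fin 3 → ZMod 7) i) := by
  intro c m hc
  have hne : ∀ a b : ZMod 7, a ≠ b → (a = 2 ∨ a = 4 ∨ a = 5 ∨ a = 6) → c (m + a) ≠ c (m + b) := by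
    intro a b hab ha
    obtain ⟨d, hd, i, j, hij, h1, h2⟩ := fano_pairs a b hab ha
    have := hc (m + d) (by simpa using hd) i j hij
    simp only at this
    rw [h1, h2, ← add_assoc, ← add_assoc]
    exact this
  have key : ∀ x : ZMod 7, (x = 0 ∨ x = 1 ∨ x = 3) → ∀ i : Fin 4,
      c (m + x) ≠ c (m + (![2, 4, 5, 6] : Fin 4 → ZMod 7) i) := by
    intro x hx i
    refine (hne _ _ ?_ ?_).symm
    · revert x i; decide
    · revert i; decide
  have hinj : Injective (fun i : Fin 4 => c (m + (![2, 4, 5, 6] : Fin 4 → ZMod 7) i)) := by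
    intro i j h
    by_contra hij
    have h1 : ∀ i j : Fin 4, i ≠ j → (![2, 4, 5, 6] : Fin 4 → ZMod 7) i ≠
        (![2, 4, 5, 6] : Fin 4 → ZMod 7) j := by decide
    have h2 : ∀ i : Fin 4, (![2, 4, 5, 6] : Fin 4 → ZMod 7) i = 2 ∨
        (![2, 4, 5, 6] : Fin 4 → ZMod 7) i = 4 ∨ (![2, 4, 5, 6] : Fin 4 → ZMod 7) i = 5 ∨
        (![2, 4, 5, 6] : Fin 4 → ZMod 7) i = 6 := by decide
    exact hne _ _ (h1 i j hij) (h2 i) h
  intro i j
  refine five _ hinj _ _ (key _ ?_) (key _ ?_)
  · revert i; decide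
  · revert j; decide

lemma fano_bool : ∀ a b c d e f g : Bool,
    (a = b ∧ b = d) ∨ (b = c ∧ c = e) ∨ (c = d ∧ d = f) ∨ (d = e ∧ e = g) ∨ (e = f ∧ f = a) ∨
    (f = g ∧ g = b) ∨ (g = a ∧ a = c) := by
  decide

lemma mono_of {P L C : Type} (pt : L → Fin 3 → P) (c : P → C) (l : L)
    (h : c (pt l 0) = c (pt l 1) ∧ c (pt l 1) = c (pt l 2)) : Mono pt c l := by
  obtain ⟨h1, h2⟩ := h
  intro i j
  fin_cases i <;> fin_cases j <;> simp [h1, h2]

lemma fano_weak (f : ZMod 7 → Bool) :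
    ∃ l, Mono (fun (l : ZMod 7) (i : Fin 3) => l + (![0, 1, 3] : Fin 3 → ZMod 7) i) f l := by
  rcases fano_bool (f 0) (f 1) (f 2) (f 3) (f 4) (f 5) (f 6) with h | h | h | h | h | h | h
  · exact ⟨0, mono_of _ _ _ (by simpa using h)⟩
  · exact ⟨1, mono_of _ _ _ h⟩
  · exact ⟨2, mono_of _ _ _ h⟩
  · exact ⟨3, mono_of _ _ _ h⟩
  · exact ⟨4, mono_of _ _ _ h⟩
  · exact ⟨5, mono_of _ _ _ h⟩
  · exact ⟨6, mono_of _ _ _ h⟩

/-- no weak colouring by two colours -/
def NoWeak {P L : Type} (pt : L → Fin 3 → P) : Prop := ∀ f : P → Bool, ∃ l, Mono pt f l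

section Star

variable {P₁ L₁ P₂ L₂ : Type} (pt₁ : L₁ → Fin 3 → P₁) (pt₂ : L₂ → Fin 3 → P₂) (m : L₁) (p : P₂)
  (σ : {x : L₂ × Fin 3 // pt₂ x.1 x.2 = p} → Fin 3)

open Classical in
/-- the colouring of the second structure from a colour for `p` -/
noncomputable def ext {C : Type} (c : P₁ ⊕ {x : P₂ // x ≠ p} → C) (b : C) : P₂ → C := fun x =>
  if h : x = p then b else c (Sum.inr ⟨x, h⟩)

lemma ext_eq {C : Type} (c : P₁ ⊕ {x : P₂ // x ≠ p} → C) (b : C)
    (hb : ∀ i, c (Sum.inl (pt₁ m i)) = b) (l : L₂) (i : Fin 3) :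
    c (starPt pt₁ pt₂ m p σ (Sum.inr l) i) = ext p c b (pt₂ l i) := by
  unfold ext starPt
  by_cases h : pt₂ l i = p
  · simp only [h, dite_true]
    exact hb _
  · simp only [h, dite_false]

lemma star_weak (h₁ : NoWeak pt₁) (h₂ : NoWeak pt₂) : NoWeak (starPt pt₁ pt₂ m p σ) := by
  intro f
  obtain ⟨l, hl⟩ := h₁ (fun x => f (Sum.inl x))
  by_cases hlm : l = m
  · subst hlm
    obtain ⟨l₂, hl₂⟩ := h₂ (ext p f (f (Sum.inl (pt₁ l 0))))
    refine ⟨Sum.inr l₂, fun i j => ?_⟩
    rw [ext_eq pt₁ pt₂ l p σ f _ (fun i => hl i 0), ext_eq pt₁ pt₂ l p σ f _ (fun i => hl i 0)]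
    exact hl₂ i j
  · exact ⟨Sum.inl ⟨l, hlm⟩, fun i j => hl i j⟩

lemma exists_color (A : Finset (Fin 5)) (hA : A.card ≤ 4) : ∃ x, x ∉ A := by
  by_contra h
  push Not at h
  have : A = Finset.univ := by
    ext x; simp [h x]
  rw [this] at hA
  simp at hA

lemma point_deleted (hσ : Bijective σ) (hp : ∀ l i j, pt₂ l i = p → pt₂ l j = p → i = j)
    (h₂ : Key pt₂) (c : {x : P₂ // x ≠ p} → Fin 5)
    (hc : ∀ l i j (hi : pt₂ l i ≠ p) (hj : pt₂ l j ≠ p), i ≠ j → c ⟨_, hi⟩ ≠ c ⟨_, hj⟩) :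
    False := by
  classical
  obtain ⟨⟨⟨l₀, i₀⟩, h0⟩, s0⟩ := hσ.2 0
  obtain ⟨⟨⟨l₁, i₁⟩, h1⟩, s1⟩ := hσ.2 1
  obtain ⟨⟨⟨l₂, i₂⟩, h2⟩, s2⟩ := hσ.2 2
  simp only at h0 h1 h2
  have all : ∀ l i, pt₂ l i = p → (l = l₀ ∨ l = l₁ ∨ l = l₂) := by
    intro l i h
    have hs : ∀ t : Fin 3, t = 0 ∨ t = 1 ∨ t = 2 := by decide
    rcases hs (σ ⟨(l, i), h⟩) with h3 | h3 | h3
    · have := hσ.1 (h3.trans s0.symm)
      simp only [Subtype.mk.injEq, Prod.mk.injEq] at this
      exact Or.inl this.1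
    · have := hσ.1 (h3.trans s1.symm)
      simp only [Subtype.mk.injEq, Prod.mk.injEq] at this
      exact Or.inr (Or.inl this.1)
    · have := hσ.1 (h3.trans s2.symm)
      simp only [Subtype.mk.injEq, Prod.mk.injEq] at this
      exact Or.inr (Or.inr this.1)
  -- colours to avoid
  let col : P₂ → Finset (Fin 5) := fun x => if h : x ≠ p then {c ⟨x, h⟩} else ∅
  have hcol : ∀ x, (col x).card ≤ 1 := by
    intro x
    simp only [col]
    split_ifs <;> simp
  have hcolp : col p = ∅ := by simp [col]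
  let A : Finset (Fin 5) := (Finset.univ.biUnion (fun i => col (pt₂ l₁ i))) ∪
    (Finset.univ.biUnion (fun i => col (pt₂ l₂ i)))
  have hA1 : ∀ (l : L₂) (i : Fin 3), pt₂ l i = p →
      (Finset.univ.biUnion (fun i => col (pt₂ l i))).card ≤ 2 := by
    intro l i hi
    have hsub : Finset.univ.biUnion (fun i => col (pt₂ l i)) ⊆
        (Finset.univ.erase i).biUnion (fun i => col (pt₂ l i)) := by
      intro x hx
      simp only [Finset.mem_biUnion, Finset.mem_univ, true_and] at hx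
      obtain ⟨j, hj⟩ := hx
      simp only [Finset.mem_biUnion, Finset.mem_erase, Finset.mem_univ, and_true]
      refine ⟨j, ?_, hj⟩
      rintro rfl
      rw [hi, hcolp] at hj
      simp at hj
    refine (Finset.card_le_card hsub).trans (Finset.card_biUnion_le.trans ?_)
    refine (Finset.sum_le_sum (fun j _ => hcol _)).trans ?_
    simp
  have hA : A.card ≤ 4 := (Finset.card_union_le _ _).trans (by
    have := hA1 l₁ i₁ h1
    have := hA1 l₂ i₂ h2
    omega)
  obtain ⟨x, hx⟩ := exists_color A hA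
  have hxA : ∀ l, (l = l₁ ∨ l = l₂) → ∀ i (hi : pt₂ l i ≠ p), x ≠ c ⟨_, hi⟩ := by
    intro l hl i hi hxc
    apply hx
    rcases hl with rfl | rfl
    · refine Finset.mem_union_left _ ?_
      simp only [Finset.mem_biUnion, Finset.mem_univ, true_and]
      refine ⟨i, ?_⟩
      simp only [col, hi, ne_eq, not_false_eq_true, dite_true, Finset.mem_singleton]
      exact hxc
    · refine Finset.mem_union_right _ ?_
      simp only [Finset.mem_biUnion, Finset.mem_univ, true_and]
      refine ⟨i, ?_⟩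
      simp only [col, hi, ne_eq, not_false_eq_true, dite_true, Finset.mem_singleton]
      exact hxc
  let c' : P₂ → Fin 5 := fun v => if h : v = p then x else c ⟨v, h⟩
  have hc'p : ∀ v, v = p → c' v = x := fun v hv => by simp [c', hv]
  have hc'n : ∀ v (h : v ≠ p), c' v = c ⟨v, h⟩ := fun v hv => by simp [c', hv]
  have hm := h₂ c' l₀ (by
    intro l hl i j hij
    by_cases hi : pt₂ l i = p
    · have hj : pt₂ l j ≠ p := fun hj => hij (hp l i j hi hj)
      rw [hc'p _ hi, hc'n _ hj]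
      exact hxA l ((all l i hi).resolve_left hl) j hj
    · by_cases hj : pt₂ l j = p
      · rw [hc'p _ hj, hc'n _ hi]
        exact (hxA l ((all l j hj).resolve_left hl) i hi).symm
      · rw [hc'n _ hi, hc'n _ hj]
        exact hc l i j hi hj hij)
  have h3 : ∀ i₀ : Fin 3, ∃ i j : Fin 3, i ≠ i₀ ∧ j ≠ i₀ ∧ i ≠ j := by decide
  obtain ⟨i, j, hi, hj, hij⟩ := h3 i₀
  have hi' : pt₂ l₀ i ≠ p := fun h => hi (hp l₀ i i₀ h h0)
  have hj' : pt₂ l₀ j ≠ p := fun h => hj (hp l₀ j i₀ h h0)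
  have := hm i j
  rw [hc'n _ hi', hc'n _ hj'] at this
  exact hc l₀ i j hi' hj' hij this

lemma star_key (hσ : Bijective σ) (hp : ∀ l i j, pt₂ l i = p → pt₂ l j = p → i = j)
    (h₁ : Key pt₁) (h₂ : Key pt₂) : Key (starPt pt₁ pt₂ m p σ) := by
  intro c l hc
  rcases l with l | l
  · exfalso
    refine point_deleted pt₂ p σ hσ hp h₂ (fun x => c (Sum.inr x)) ?_
    intro l' i j hi hj hij
    have := hc (Sum.inr l') (by simp) i j hij
    simpa [starPt, hi, hj] using this
  · have hm : Mono pt₁ (fun x => c (Sum.inl x)) m := by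
      refine h₁ _ m ?_
      intro l' hl' i j hij
      exact hc (Sum.inl ⟨l', hl'⟩) (by simp) i j hij
    have he := ext_eq pt₁ pt₂ m p σ c (c (Sum.inl (pt₁ m 0))) (fun i => hm i 0)
    have := h₂ (ext p c (c (Sum.inl (pt₁ m 0)))) l (by
      intro l' hl' i j hij
      rw [← he, ← he]
      exact hc (Sum.inr l') (by simpa using hl') i j hij)
    intro i j
    rw [he, he]
    exact this i j

end Star

section Ring

variable (P L : Fin 3 → Type) (pt : ∀ k, L k → Fin 3 → P k) (y : ∀ k, L k) (s : Fin 3 → Fin 3)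

lemma ring_ne (k : Fin 3) (l : L k) (h : l ≠ y k) (i : Fin 3) :
    ringPt P L pt y s ⟨k, l⟩ i = ⟨k, pt k l i⟩ := by
  simp [ringPt, h]

lemma ring_ne' (k : Fin 3) (l : L k) (i : Fin 3) (h : i ≠ s k) :
    ringPt P L pt y s ⟨k, l⟩ i = ⟨k, pt k l i⟩ := by
  simp [ringPt, h]

lemma ring_eq (k : Fin 3) : ringPt P L pt y s ⟨k, y k⟩ (s k) =
    ⟨k + 1, pt (k + 1) (y (k + 1)) (s (k + 1))⟩ := by
  simp [ringPt]

lemma ring_weak (h : ∀ k, NoWeak (pt k)) : NoWeak (ringPt P L pt y s) := by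
  intro f
  by_contra hf
  push Not at hf
  have hm : ∀ k, Mono (pt k) (fun x => f ⟨k, x⟩) (y k) := by
    intro k
    obtain ⟨l, hl⟩ := h k (fun x => f ⟨k, x⟩)
    by_cases hly : l = y k
    · rw [← hly]; exact hl
    · exfalso
      refine hf ⟨k, l⟩ fun i j => ?_
      rw [ring_ne P L pt y s k l hly, ring_ne P L pt y s k l hly]
      exact hl i j
  have hne : ∀ k, f ⟨k, pt k (y k) (s k)⟩ ≠ f ⟨k + 1, pt (k + 1) (y (k + 1)) (s (k + 1))⟩ := by
    intro k hk
    refine hf ⟨k, y k⟩ ?_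
    have hall : ∀ i, f (ringPt P L pt y s ⟨k, y k⟩ i) = f ⟨k, pt k (y k) (s k)⟩ := by
      intro i
      by_cases hi : i = s k
      · rw [hi, ring_eq, hk]
      · rw [ring_ne' P L pt y s k _ i hi]
        exact hm k i (s k)
    intro i j
    rw [hall, hall]
  have h0 := hne 0
  have h1 := hne 1
  have h2 := hne 2
  have e0 : (0 : Fin 3) + 1 = 1 := rfl
  have e1 : (1 : Fin 3) + 1 = 2 := rfl
  have e2 : (2 : Fin 3) + 1 = 0 := rfl
  rw [e0] at h0
  rw [e1] at h1
  rw [e2] at h2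
  have hb : ∀ a b d : Bool, a ≠ b → b ≠ d → d ≠ a → False := by decide
  exact hb _ _ _ h0 h1 h2

lemma ring_key (h : ∀ k, Key (pt k)) : Key (ringPt P L pt y s) := by
  rintro c ⟨k₀, l₀⟩ hc
  exfalso
  have hk : ∀ k₀ : Fin 3, ∃ k, k ≠ k₀ := by decide
  obtain ⟨k, hk⟩ := hk k₀
  have hR : ∀ l : L k, Rainbow (ringPt P L pt y s) c ⟨k, l⟩ := by
    intro l
    refine hc ⟨k, l⟩ ?_
    intro he
    exact hk (congrArg Sigma.fst he)
  have hm := h k (fun x => c ⟨k, x⟩) (y k) (by
    intro l hl i j hij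
    have := hR l i j hij
    rwa [ring_ne P L pt y s k l hl, ring_ne P L pt y s k l hl] at this)
  have h3 : ∀ i₀ : Fin 3, ∃ i j : Fin 3, i ≠ i₀ ∧ j ≠ i₀ ∧ i ≠ j := by decide
  obtain ⟨i, j, hi, hj, hij⟩ := h3 (s k)
  have := hR (y k) i j hij
  rw [ring_ne' P L pt y s k _ i hi, ring_ne' P L pt y s k _ j hj] at this
  exact this (hm i j)

end Ring

lemma iso_weak {P L P' L' : Type} (pt : L → Fin 3 → P) (e : P ≃ P') (f : L' ≃ L)
    (g : L' → Equiv.Perm (Fin 3)) (h : NoWeak pt) :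
    NoWeak (fun (l : L') (i : Fin 3) => e (pt (f l) (g l i))) := by
  intro c
  obtain ⟨l, hl⟩ := h (fun x => c (e x))
  refine ⟨f.symm l, fun i j => ?_⟩
  simp only [Equiv.apply_symm_apply]
  exact hl _ _

lemma iso_key {P L P' L' : Type} (pt : L → Fin 3 → P) (e : P ≃ P') (f : L' ≃ L)
    (g : L' → Equiv.Perm (Fin 3)) (h : Key pt) :
    Key (fun (l : L') (i : Fin 3) => e (pt (f l) (g l i))) := by
  intro c m hc
  have := h (fun x => c (e x)) (f m) (by
    intro l hl i j hij
    have := hc (f.symm l) (by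
      rintro rfl
      simp at hl) ((g (f.symm l)).symm i) ((g (f.symm l)).symm j) (by simpa using hij)
    simpa using this)
  intro i j
  exact this _ _

theorem built_all {P L : Type} {pt : L → Fin 3 → P} (h : Built P L pt) :
    Nonempty L ∧ NoWeak pt ∧ Key pt := by
  induction h with
  | theta =>
    exact ⟨⟨()⟩, fun f => ⟨(), fun i j => rfl⟩, fun c m _ i j => rfl⟩
  | fano => exact ⟨⟨0⟩, fano_weak, fano_key⟩
  | star P₁ L₁ P₂ L₂ pt₁ pt₂ m p σ hσ hp h₁ h₂ ih₁ ih₂ =>
    refine ⟨?_, star_weak pt₁ pt₂ m p σ ih₁.2.1 ih₂.2.1, star_key pt₁ pt₂ m p σ hσ hp ih₁.2.2 ih₂.2.2⟩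
    obtain ⟨l⟩ := ih₂.1
    exact ⟨Sum.inr l⟩
  | ring P L pt y s h ih =>
    exact ⟨⟨⟨0, y 0⟩⟩, ring_weak P L pt y s (fun k => (ih k).2.1),
      ring_key P L pt y s (fun k => (ih k).2.2)⟩
  | iso P L P' L' pt e f g h ih =>
    obtain ⟨l⟩ := ih.1
    exact ⟨⟨f.symm l⟩, iso_weak pt e f g ih.2.1, iso_key pt e f g ih.2.2⟩

/-- symmetric configurations `v₃` -/
structure IsConfiguration {P L : Type} [Fintype P] [Fintype L] (I : P → L → Prop) (v : ℕ) :
    Prop where
  card_points : Fintype.card P = v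
  card_lines : Fintype.card L = v
  points_on : ∀ l, Set.ncard {p | I p l} = 3
  lines_through : ∀ p, Set.ncard {l | I p l} = 3
  linear : ∀ p q, p ≠ q → ∀ l m, I p l → I q l → I p m → I q m → l = m

/-- strong colourability by `n` colours -/
def StrongColourable {P L : Type} (I : P → L → Prop) (n : ℕ) : Prop :=
  ∃ c : P → Fin n, ∀ l p q, I p l → I q l → p ≠ q → c p ≠ c q

/-- weak colourability by `n` colours -/
def WeakColourable {P L : Type} (I : P → L → Prop) (n : ℕ) : Prop :=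
  ∃ c : P → Fin n, ∀ l, ¬ ∃ a, ∀ p, I p l → c p = a

/-- some component of the configuration (all the lines `g l'` with all their points) is a member
of the class -/
def HasBuiltComponent {P L : Type} (I : P → L → Prop) : Prop :=
  ∃ (P' L' : Type) (pt : L' → Fin 3 → P') (e : P' → P) (g : L' → L), Built P' L' pt ∧
    Injective e ∧ ∀ l' p, I p (g l') ↔ ∃ i, e (pt l' i) = p

lemma no_five {P L : Type} {pt : L → Fin 3 → P} (h : Built P L pt) :
    ¬ ∃ c : P → Fin 5, ∀ l, Rainbow pt c l := by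
  rintro ⟨c, hc⟩
  obtain ⟨⟨l⟩, -, h3⟩ := built_all h
  exact hc l 0 1 (by decide) (h3 c l (fun l' _ => hc l') 0 1)

lemma no_weak {P L : Type} (I : P → L → Prop) (h : HasBuiltComponent I) :
    ¬ WeakColourable I 2 := by
  obtain ⟨P', L', pt, e, g, hB, he, hg⟩ := h
  rintro ⟨c, hc⟩
  obtain ⟨l, hl⟩ := (built_all hB).2.1 (fun x => decide (c (e x) = 0))
  refine hc (g l) ⟨c (e (pt l 0)), ?_⟩
  intro p hp
  obtain ⟨i, rfl⟩ := (hg l p).1 hp
  have h1 := hl i 0
  simp only [decide_eq_decide] at h1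
  revert h1
  generalize c (e (pt l i)) = a
  generalize c (e (pt l 0)) = b
  revert a b
  decide

lemma no_strong {P L : Type} (I : P → L → Prop) (h3 : ∀ l, Set.ncard {p | I p l} = 3)
    (h : HasBuiltComponent I) : ¬ StrongColourable I 5 := by
  classical
  obtain ⟨P', L', pt, e, g, hB, he, hg⟩ := h
  rintro ⟨c, hc⟩
  refine no_five hB ⟨fun x => c (e x), ?_⟩
  intro l i j hij
  refine hc (g l) _ _ ((hg l _).2 ⟨i, rfl⟩) ((hg l _).2 ⟨j, rfl⟩) ?_
  intro heq
  have h3 := h3 (g l)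
  have hset : {p | I p (g l)} = ((Finset.univ.erase j).image (fun i => e (pt l i)) : Set P) := by
    ext p
    simp only [Set.mem_ofPred_eq, Finset.coe_image, Finset.coe_erase, Finset.coe_univ,
      Set.mem_image, Set.mem_sdiff, Set.mem_univ, Set.mem_singleton_iff, true_and]
    rw [hg]
    constructor
    · rintro ⟨k, hk⟩
      by_cases hkj : k = j
      · exact ⟨i, hij, by rw [heq, ← hkj, hk]⟩
      · exact ⟨k, hkj, hk⟩
    · rintro ⟨k, -, hk⟩
      exact ⟨k, hk⟩
  rw [hset, Set.ncard_coe_finset] at h3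
  have := Finset.card_image_le (s := Finset.univ.erase j) (f := fun i => e (pt l i))
  rw [h3] at this
  simp at this

theorem result (v : ℕ) (P L : Type) [Fintype P] [Fintype L] (I : P → L → Prop)
    (hI : IsConfiguration I v) (hB : HasBuiltComponent I) :
    (∀ n, StrongColourable I n → 6 ≤ n) ∧ (∀ n, WeakColourable I n → 3 ≤ n) := by
  constructor
  · rintro n ⟨c, hc⟩
    by_contra hn
    refine no_strong I hI.points_on hB ⟨fun p => Fin.castLE (by omega) (c p), ?_⟩
    intro l p q hp hq hpq heq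
    exact hc l p q hp hq hpq (Fin.castLE_injective _ heq)
  · rintro n ⟨c, hc⟩
    by_contra hn
    refine no_weak I hB ⟨fun p => Fin.castLE (by omega) (c p), ?_⟩
    rintro l ⟨a, ha⟩
    have h3 := hI.points_on l
    have hne : {p | I p l}.Nonempty := by
      rw [Set.nonempty_iff_ne_empty]
      intro h
      rw [h] at h3
      simp at h3
    obtain ⟨p₀, hp₀⟩ := hne
    refine hc l ⟨c p₀, fun p hp => ?_⟩
    have h1 := ha p hp
    have h2 := ha p₀ hp₀
    exact Fin.castLE_injective _ (h1.trans h2.symm)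

end Pool.Agent.Results.MP_cb5629_co.FanoTrees
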