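import Mathlib

set_option autoImplicit false

namespace Pool.Agent.Results.MP_cb5629_co.NoStrongFive

/-- There is a strong colouring with `k` colours: distinct points of a line have distinct colours. -/
def Strong {P L : Type} (I : P → L → Prop) (k : ℕ) : Prop :=
  ∃ c : P → Fin k, ∀ m a b, I a m → I b m → a ≠ b → c a ≠ c b

/-- There is a weak colouring with `k` colours: every line has two points of distinct colours. -/
def Weak {P L : Type} (I : P → L → Prop) (k : ℕ) : Prop :=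
  ∃ c : P → Fin k, ∀ m, ∃ a b, I a m ∧ I b m ∧ c a ≠ c b

/-- The incidence relation of the star product of `I₁` at the point `p` and `I₂` at the line `l`:
`p` and `l` are removed and the line `m ∋ p` receives the point `σ m` of `l` in place of `p`. -/
def star {P₁ L₁ P₂ L₂ : Type} (I₁ : P₁ → L₁ → Prop) (I₂ : P₂ → L₂ → Prop) (p : P₁) (l : L₂)
    (σ : {m // I₁ p m} ≃ {q // I₂ q l}) :
    {a // a ≠ p} ⊕ P₂ → L₁ ⊕ {m // m ≠ l} → Prop
  | .inl a, .inl m => I₁ a m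
  | .inl _, .inr _ => False
  | .inr q, .inl m => ∃ h : I₁ p m, (σ ⟨m, h⟩ : P₂) = q
  | .inr q, .inr m => I₂ q m

/-- The incidence relation of the cyclic sum of `I₁, I₂, I₃` at the flags `(pᵢ, lᵢ)`: the flags are
removed and `p₁` is put on `l₂`, `p₂` on `l₃`, `p₃` on `l₁`. -/
def cyc {P₁ L₁ P₂ L₂ P₃ L₃ : Type} (I₁ : P₁ → L₁ → Prop) (I₂ : P₂ → L₂ → Prop)
    (I₃ : P₃ → L₃ → Prop) (p₁ : P₁) (l₁ : L₁) (p₂ : P₂) (l₂ : L₂) (p₃ : P₃) (l₃ : L₃) :
    P₁ ⊕ P₂ ⊕ P₃ → L₁ ⊕ L₂ ⊕ L₃ → Prop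
  | .inl a, .inl m => I₁ a m ∧ ¬ (a = p₁ ∧ m = l₁)
  | .inr (.inl a), .inr (.inl m) => I₂ a m ∧ ¬ (a = p₂ ∧ m = l₂)
  | .inr (.inr a), .inr (.inr m) => I₃ a m ∧ ¬ (a = p₃ ∧ m = l₃)
  | .inl a, .inr (.inl m) => a = p₁ ∧ m = l₂
  | .inr (.inl a), .inr (.inr m) => a = p₂ ∧ m = l₃
  | .inr (.inr a), .inl m => a = p₃ ∧ m = l₁
  | _, _ => False

/-- The Fano plane: the lines are the translates of the quadratic residues modulo `7`. -/
def fano (a m : ZMod 7) : Prop := a - m = 1 ∨ a - m = 2 ∨ a - m = 4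

/-- The structures obtained from the Fano plane by star products and cyclic sums. -/
inductive Built : (P L : Type) → (P → L → Prop) → Prop
  | fano : Built (ZMod 7) (ZMod 7) fano
  | iso (P L P' L' : Type) (I : P → L → Prop) (I' : P' → L' → Prop) (e : P ≃ P') (f : L ≃ L')
      (h : ∀ a m, I a m ↔ I' (e a) (f m)) : Built P L I → Built P' L' I'
  | star (P₁ L₁ P₂ L₂ : Type) (I₁ : P₁ → L₁ → Prop) (I₂ : P₂ → L₂ → Prop) (p : P₁) (l : L₂)
      (σ : {m // I₁ p m} ≃ {q // I₂ q l}) : Built P₁ L₁ I₁ → Built P₂ L₂ I₂ →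
      Built _ _ (star I₁ I₂ p l σ)
  | cyc (P₁ L₁ P₂ L₂ P₃ L₃ : Type) (I₁ : P₁ → L₁ → Prop) (I₂ : P₂ → L₂ → Prop)
      (I₃ : P₃ → L₃ → Prop) (p₁ : P₁) (l₁ : L₁) (p₂ : P₂) (l₂ : L₂) (p₃ : P₃) (l₃ : L₃) :
      I₁ p₁ l₁ → I₂ p₂ l₂ → I₃ p₃ l₃ → Built P₁ L₁ I₁ → Built P₂ L₂ I₂ → Built P₃ L₃ I₃ →
      Built _ _ (cyc I₁ I₂ I₃ p₁ l₁ p₂ l₂ p₃ l₃)

/-- the properties carried through the induction -/
structure Good {P L : Type} (I : P → L → Prop) : Prop where
  n : ∀ m, ∃ a, I a m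
  s : ∀ m p, I p m → ∃ a b, a ≠ b ∧ a ≠ p ∧ b ≠ p ∧ I a m ∧ I b m
  hp : ∀ (r : P) (c : P → Fin 5),
    ¬ ∀ m a b, I a m → I b m → a ≠ b → a ≠ r → b ≠ r → c a ≠ c b
  hl : ∀ (l : L) (c : P → Fin 5), (∀ m, m ≠ l → ∀ a b, I a m → I b m → a ≠ b → c a ≠ c b) →
    ∀ a b, I a l → I b l → c a = c b
  w : ∀ c : P → Bool, ∃ m, ∀ a b, I a m → I b m → c a = c b

instance : DecidableRel fano := fun a m => by unfold fano; infer_instance

lemma fano_collinear : ∀ a b : ZMod 7, a ≠ b → ∃ m, fano a m ∧ fano b m := by decide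

set_option maxRecDepth 100000 in
lemma fano_collinear' : ∀ l a b : ZMod 7, a ≠ b → ¬ (fano a l ∧ fano b l) →
    ∃ m, m ≠ l ∧ fano a m ∧ fano b m := by decide

set_option maxRecDepth 100000 in
lemma card6 : ∀ r : ZMod 7, (Finset.univ.filter (fun a : ZMod 7 => a ≠ r)).card = 6 := by decide

set_option maxRecDepth 100000 in
lemma card6' : ∀ l a b : ZMod 7, fano a l → fano b l → a ≠ b →
    (Finset.univ.filter (fun x : ZMod 7 => ¬ fano x l ∨ x = a ∨ x = b)).card = 6 := by decide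

set_option maxRecDepth 100000 in
lemma fano_s : ∀ m p : ZMod 7, fano p m → ∃ a b, a ≠ b ∧ a ≠ p ∧ b ≠ p ∧ fano a m ∧ fano b m := by
  decide

set_option maxRecDepth 100000 in
lemma bool7 : ∀ x0 x1 x2 x3 x4 x5 x6 : Bool, ¬ (x1 = x2 ∧ x2 = x4) → ¬ (x2 = x3 ∧ x3 = x5) →
    ¬ (x3 = x4 ∧ x4 = x6) → ¬ (x4 = x5 ∧ x5 = x0) → ¬ (x5 = x6 ∧ x6 = x1) →
    ¬ (x6 = x0 ∧ x0 = x2) → ¬ (x0 = x1 ∧ x1 = x3) → False := by
  intro x0 x1 x2 x3 x4 x5 x6
  cases x0 <;> cases x1 <;> cases x2 <;> cases x3 <;> cases x4 <;> cases x5 <;> cases x6 <;> simp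

lemma fano_w (c : ZMod 7 → Bool) : ∃ m, ∀ a b, fano a m → fano b m → c a = c b := by
  by_contra h
  push Not at h
  have key : ∀ m : ZMod 7, ¬ (c (m + 1) = c (m + 2) ∧ c (m + 2) = c (m + 4)) := by
    rintro m ⟨h1, h2⟩
    obtain ⟨a, b, ha, hb, hab⟩ := h m
    have q : ∀ x, fano x m → c x = c (m + 1) := by
      intro x hx
      rcases hx with hx | hx | hx
      · rw [show x = m + 1 by rw [← hx]; ring]
      · rw [show x = m + 2 by rw [← hx]; ring, h1]
      · rw [show x = m + 4 by rw [← hx]; ring, h1, h2]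
    exact hab ((q a ha).trans (q b hb).symm)
  exact bool7 (c 0) (c 1) (c 2) (c 3) (c 4) (c 5) (c 6) (key 0) (key 1) (key 2) (key 3) (key 4)
    (key 5) (key 6)

lemma good_fano : Good fano := by
  refine ⟨fun m => ⟨m + 1, Or.inl (by ring)⟩, fano_s, ?_, ?_, fano_w⟩
  · intro r c h
    have hinj : Set.InjOn c {a | a ≠ r} := by
      intro a ha b hb hab
      by_contra hne
      obtain ⟨m, h1, h2⟩ := fano_collinear a b hne
      exact h m a b h1 h2 hne ha hb hab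
    have h1 : (Finset.univ.filter (fun a : ZMod 7 => a ≠ r)).card ≤ (Finset.univ : Finset (Fin 5)).card :=
      Finset.card_le_card_of_injOn c (fun _ _ => Finset.mem_univ _) (by
        intro a ha b hb hab
        exact hinj (by simpa using ha) (by simpa using hb) hab)
    rw [card6 r] at h1
    simp at h1
  · intro l c h a b ha hb
    by_contra hab
    have hne : a ≠ b := fun h => hab (by rw [h])
    have h1 : (Finset.univ.filter (fun x : ZMod 7 => ¬ fano x l ∨ x = a ∨ x = b)).card ≤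
        (Finset.univ : Finset (Fin 5)).card :=
      Finset.card_le_card_of_injOn c (fun _ _ => Finset.mem_univ _) (by
        intro x hx y hy hxy
        by_contra hxy'
        have hx' : ¬ fano x l ∨ x = a ∨ x = b := by simpa using hx
        have hy' : ¬ fano y l ∨ y = a ∨ y = b := by simpa using hy
        by_cases hl : fano x l ∧ fano y l
        · rcases hx' with hx' | rfl | rfl
          · exact hx' hl.1
          · rcases hy' with hy' | rfl | rfl
            · exact hy' hl.2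
            · exact hxy' rfl
            · exact hab hxy
          · rcases hy' with hy' | rfl | rfl
            · exact hy' hl.2
            · exact hab hxy.symm
            · exact hxy' rfl
        · obtain ⟨m, hm, h1, h2⟩ := fano_collinear' l x y hxy' hl
          exact h m hm x y h1 h2 hxy' hxy)
    rw [card6' l a b ha hb hne] at h1
    simp at h1

lemma good_iso {P L P' L' : Type} {I : P → L → Prop} {I' : P' → L' → Prop} (e : P ≃ P')
    (f : L ≃ L') (h : ∀ a m, I a m ↔ I' (e a) (f m)) (g : Good I) : Good I' := by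
  have h' : ∀ a m, I' a m ↔ I (e.symm a) (f.symm m) := by
    intro a m; rw [h]; simp
  refine ⟨?_, ?_, ?_, ?_, ?_⟩
  · intro m
    obtain ⟨a, ha⟩ := g.n (f.symm m)
    exact ⟨e a, by rw [h']; simpa using ha⟩
  · intro m p hp
    obtain ⟨a, b, h1, h2, h3, h4, h5⟩ := g.s (f.symm m) (e.symm p) ((h' _ _).1 hp)
    refine ⟨e a, e b, by simpa using h1, ?_, ?_, ?_, ?_⟩
    · rintro rfl; simp at h2
    · rintro rfl; simp at h3
    · rw [h']; simpa using h4
    · rw [h']; simpa using h5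
  · intro r c hc
    refine g.hp (e.symm r) (fun a => c (e a)) ?_
    intro m a b ha hb hab har hbr
    refine hc (f m) (e a) (e b) ((h _ _).1 ha) ((h _ _).1 hb) (by simpa using hab) ?_ ?_
    · rintro rfl; simp at har
    · rintro rfl; simp at hbr
  · intro l c hc a b ha hb
    have := g.hl (f.symm l) (fun a => c (e a)) (fun m hm x y hx hy hxy =>
      hc (f m) (by rintro rfl; simp at hm) (e x) (e y) ((h _ _).1 hx) ((h _ _).1 hy)
        (by simpa using hxy)) (e.symm a) (e.symm b) ((h' _ _).1 ha) ((h' _ _).1 hb)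
    simpa using this
  · intro c
    obtain ⟨m, hm⟩ := g.w (fun a => c (e a))
    refine ⟨f m, fun a b ha hb => ?_⟩
    have := hm (e.symm a) (e.symm b) (by rw [h]; simpa using ha) (by rw [h]; simpa using hb)
    simpa using this

section starp

variable {P₁ L₁ P₂ L₂ : Type} {I₁ : P₁ → L₁ → Prop} {I₂ : P₂ → L₂ → Prop} {p : P₁}
    {l : L₂} {σ : {m // I₁ p m} ≃ {q // I₂ q l}}

open Classical in
/-- extension of a colouring of the product to the first factor -/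
noncomputable def ext {C : Type} (c : {a // a ≠ p} ⊕ P₂ → C) (κ : C) (x : P₁) : C :=
  if h : x = p then κ else c (.inl ⟨x, h⟩)

lemma star_map {C : Type} (c : {a // a ≠ p} ⊕ P₂ → C) (κ : C)
    (hκ : ∀ q, I₂ q l → c (.inr q) = κ) (m : L₁) (x : {a // a ≠ p} ⊕ P₂)
    (hx : star I₁ I₂ p l σ x (.inl m)) : ∃ y, I₁ y m ∧ ext c κ y = c x := by
  rcases x with x | x
  · exact ⟨x.1, hx, by simp [ext, x.2]⟩
  · obtain ⟨h, rfl⟩ := hx
    exact ⟨p, h, by simp [ext, hκ _ (σ ⟨m, h⟩).2]⟩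

lemma star_lift {C : Type} (c : {a // a ≠ p} ⊕ P₂ → C) (κ : C)
    (hκ : ∀ q, I₂ q l → c (.inr q) = κ) (m : L₁) (a b : P₁) (ha : I₁ a m) (hb : I₁ b m)
    (hab : a ≠ b) : ∃ x x', star I₁ I₂ p l σ x (.inl m) ∧ star I₁ I₂ p l σ x' (.inl m) ∧
      x ≠ x' ∧ ext c κ a = c x ∧ ext c κ b = c x' ∧ (∀ r, x = .inl r → a = r.1) ∧
      (∀ r, x' = .inl r → b = r.1) := by
  by_cases h1 : a = p
  · subst h1
    refine ⟨.inr (σ ⟨m, ha⟩).1, .inl ⟨b, fun h => hab h.symm⟩, ⟨ha, rfl⟩, hb, by simp, ?_, ?_,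
      by simp, ?_⟩
    · simp [ext, hκ _ (σ ⟨m, ha⟩).2]
    · have hb' : b ≠ a := fun h => hab h.symm
      simp [ext, hb']
    · rintro r h; cases h; rfl
  · by_cases h2 : b = p
    · subst h2
      refine ⟨.inl ⟨a, h1⟩, .inr (σ ⟨m, hb⟩).1, ha, ⟨hb, rfl⟩, by simp, ?_, ?_, ?_, by simp⟩
      · simp [ext, h1]
      · simp [ext, hκ _ (σ ⟨m, hb⟩).2]
      · rintro r h; cases h; rfl
    · refine ⟨.inl ⟨a, h1⟩, .inl ⟨b, h2⟩, ha, hb, by simpa using hab, by simp [ext, h1],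
        by simp [ext, h2], ?_, ?_⟩
      · rintro r h; cases h; rfl
      · rintro r h; cases h; rfl

lemma good_star (g₁ : Good I₁) (g₂ : Good I₂) : Good (star I₁ I₂ p l σ) := by
  obtain ⟨q0, hq0⟩ := g₂.n l
  refine ⟨?_, ?_, ?_, ?_, ?_⟩
  · rintro (m | m)
    · obtain ⟨a, ha⟩ := g₁.n m
      by_cases h : a = p
      · subst h; exact ⟨.inr (σ ⟨m, ha⟩).1, ⟨ha, rfl⟩⟩
      · exact ⟨.inl ⟨a, h⟩, ha⟩
    · obtain ⟨a, ha⟩ := g₂.n m.1
      exact ⟨.inr a, ha⟩
  · rintro (m | m) (x | x) hx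
    · obtain ⟨a, b, h1, h2, h3, h4, h5⟩ := g₁.s m x.1 hx
      by_cases ha : a = p
      · subst ha
        refine ⟨.inr (σ ⟨m, h4⟩).1, .inl ⟨b, fun h => h1 h.symm⟩, by simp, by simp, ?_, ⟨h4, rfl⟩, h5⟩
        rintro h; apply h3; rw [← Sum.inl.inj h]
      · by_cases hb : b = p
        · subst hb
          refine ⟨.inl ⟨a, ha⟩, .inr (σ ⟨m, h5⟩).1, by simp, ?_, by simp, h4, ⟨h5, rfl⟩⟩
          rintro h; apply h2; rw [← Sum.inl.inj h]
        · refine ⟨.inl ⟨a, ha⟩, .inl ⟨b, hb⟩, by simpa using h1, ?_, ?_, h4, h5⟩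
          · rintro h; apply h2; rw [← Sum.inl.inj h]
          · rintro h; apply h3; rw [← Sum.inl.inj h]
    · obtain ⟨h, rfl⟩ := hx
      obtain ⟨a, b, h1, h2, h3, h4, h5⟩ := g₁.s m p h
      exact ⟨.inl ⟨a, h2⟩, .inl ⟨b, h3⟩, by simpa using h1, by simp, by simp, h4, h5⟩
    · exact hx.elim
    · obtain ⟨a, b, h1, h2, h3, h4, h5⟩ := g₂.s m.1 x hx
      exact ⟨.inr a, .inr b, by simpa using h1, by simpa using h2, by simpa using h3, h4, h5⟩
  · rintro (r | r) c hc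
    · have hk := g₂.hl l (fun q => c (.inr q)) (fun m hm a b ha hb hab =>
        hc (.inr ⟨m, hm⟩) (.inr a) (.inr b) ha hb (by simpa using hab) (by simp) (by simp))
      have hκ : ∀ q, I₂ q l → c (.inr q) = c (.inr q0) := fun q hq => hk q q0 hq hq0
      refine g₁.hp r.1 (ext c (c (.inr q0))) ?_
      intro m a b ha hb hab har hbr
      obtain ⟨x, x', h1, h2, h3, h4, h5, h6, h7⟩ :=
        star_lift (σ := σ) c (c (.inr q0)) hκ m a b ha hb hab
      rw [h4, h5]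
      exact hc (.inl m) x x' h1 h2 h3 (fun h => har (h6 r h)) (fun h => hbr (h7 r h))
    · refine g₁.hp p (ext c 0) ?_
      intro m a b ha hb hab har hbr
      have := hc (.inl m) (.inl ⟨a, har⟩) (.inl ⟨b, hbr⟩) ha hb (by simpa using hab)
        (by simp) (by simp)
      simpa [ext, har, hbr] using this
  · rintro (l0 | l0) c hc x x' hx hx'
    · have hk := g₂.hl l (fun q => c (.inr q)) (fun m hm a b ha hb hab =>
        hc (.inr ⟨m, hm⟩) (by simp) (.inr a) (.inr b) ha hb (by simpa using hab))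
      have hκ : ∀ q, I₂ q l → c (.inr q) = c (.inr q0) := fun q hq => hk q q0 hq hq0
      obtain ⟨y, hy, e⟩ := star_map (σ := σ) c _ hκ l0 x hx
      obtain ⟨y', hy', e'⟩ := star_map (σ := σ) c _ hκ l0 x' hx'
      rw [← e, ← e']
      refine g₁.hl l0 _ ?_ y y' hy hy'
      intro m hm a b ha hb hab
      obtain ⟨z, z', h1, h2, h3, h4, h5, -, -⟩ :=
        star_lift (σ := σ) c (c (.inr q0)) hκ m a b ha hb hab
      rw [h4, h5]
      exact hc (.inl m) (by simpa using hm) z z' h1 h2 h3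
    · exfalso
      refine g₁.hp p (ext c 0) ?_
      intro m a b ha hb hab har hbr
      have := hc (.inl m) (by simp) (.inl ⟨a, har⟩) (.inl ⟨b, hbr⟩) ha hb (by simpa using hab)
      simpa [ext, har, hbr] using this
  · intro c
    obtain ⟨m, hm⟩ := g₂.w (fun q => c (.inr q))
    by_cases hml : m = l
    · subst hml
      have hκ : ∀ q, I₂ q m → c (.inr q) = c (.inr q0) := fun q hq => hm q q0 hq hq0
      obtain ⟨m', hm'⟩ := g₁.w (ext c (c (.inr q0)))
      refine ⟨.inl m', ?_⟩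
      intro x x' hx hx'
      obtain ⟨y, hy, e⟩ := star_map (σ := σ) c _ hκ m' x hx
      obtain ⟨y', hy', e'⟩ := star_map (σ := σ) c _ hκ m' x' hx'
      rw [← e, ← e']
      exact hm' y y' hy hy'
    · refine ⟨.inr ⟨m, hml⟩, ?_⟩
      rintro (x | x) (x' | x') hx hx'
      · exact hx.elim
      · exact hx.elim
      · exact hx'.elim
      · exact hm x x' hx hx'

end starp

section cycp

variable {P L PP LL : Type} {I : P → L → Prop} (g : Good I) (p : P) (l : L) (hpl : I p l)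
  (J : PP → LL → Prop) (f : P → PP) (k : L → LL) (z : PP) (hf : Function.Injective f)
  (hz : ∀ a, f a ≠ z) (h1 : ∀ a m, I a m → ¬ (a = p ∧ m = l) → J (f a) (k m)) (h2 : J z (k l))
  (h3 : ∀ x m, J x (k m) → (∃ a, x = f a ∧ I a m ∧ ¬ (a = p ∧ m = l)) ∨ (x = z ∧ m = l))

include g hpl hf hz h1 h2 h3

lemma piece_s (m : L) (x : PP) (hx : J x (k m)) :
    ∃ u v, u ≠ v ∧ u ≠ x ∧ v ≠ x ∧ J u (k m) ∧ J v (k m) := by
  rcases h3 x m hx with ⟨a, rfl, ha, hna⟩ | ⟨rfl, rfl⟩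
  · obtain ⟨u, v, e1, e2, e3, e4, e5⟩ := g.s m a ha
    by_cases hu : u = p ∧ m = l
    · obtain ⟨rfl, rfl⟩ := hu
      refine ⟨z, f v, (hz v).symm, (hz a).symm, hf.ne e3, h2, h1 v m e5 ?_⟩
      rintro ⟨h, -⟩; exact e1 h.symm
    · by_cases hv : v = p ∧ m = l
      · obtain ⟨rfl, rfl⟩ := hv
        exact ⟨f u, z, hz u, hf.ne e2, (hz a).symm, h1 u m e4 hu, h2⟩
      · exact ⟨f u, f v, hf.ne e1, hf.ne e2, hf.ne e3, h1 u m e4 hu, h1 v m e5 hv⟩
  · obtain ⟨u, v, e1, e2, e3, e4, e5⟩ := g.s m p hpl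
    exact ⟨f u, f v, hf.ne e1, hz u, hz v, h1 u m e4 (fun h => e2 h.1), h1 v m e5 (fun h => e3 h.1)⟩

lemma piece_w (c : PP → Bool) (hc : ∀ m, ∃ x x', J x (k m) ∧ J x' (k m) ∧ c x ≠ c x') :
    c z ≠ c (f p) := by
  obtain ⟨m0, hm0⟩ := g.w (fun a => c (f a))
  obtain ⟨x, x', hx, hx', hne⟩ := hc m0
  rcases h3 x m0 hx with ⟨a, rfl, ha, hna⟩ | ⟨rfl, rfl⟩
  · rcases h3 x' m0 hx' with ⟨b, rfl, hb, hnb⟩ | ⟨rfl, rfl⟩
    · exact absurd (hm0 a b ha hb) hne
    · rw [← hm0 a p ha hpl]; exact hne.symm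
  · rcases h3 x' m0 hx' with ⟨b, rfl, hb, hnb⟩ | ⟨rfl, -⟩
    · rw [← hm0 b p hb hpl]; exact hne
    · exact absurd rfl hne

omit hz h2 h3 hf in
lemma piece_p (c : PP → Fin 5)
    (hc : ∀ m a b, J (f a) (k m) → J (f b) (k m) → a ≠ b → c (f a) ≠ c (f b)) : False := by
  have hk := g.hl l (fun a => c (f a)) (fun m hm a b ha hb hab =>
    hc m a b (h1 a m ha (fun h => hm h.2)) (h1 b m hb (fun h => hm h.2)) hab)
  obtain ⟨u, v, e1, e2, e3, e4, e5⟩ := g.s l p hpl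
  exact hc l u v (h1 u l e4 (fun h => e2 h.1)) (h1 v l e5 (fun h => e3 h.1)) e1 (hk u v e4 e5)

end cycp

lemma good_cyc {P₁ L₁ P₂ L₂ P₃ L₃ : Type} {I₁ : P₁ → L₁ → Prop} {I₂ : P₂ → L₂ → Prop}
    {I₃ : P₃ → L₃ → Prop} {p₁ : P₁} {l₁ : L₁} {p₂ : P₂} {l₂ : L₂} {p₃ : P₃} {l₃ : L₃}
    (h₁ : I₁ p₁ l₁) (h₂ : I₂ p₂ l₂) (h₃ : I₃ p₃ l₃) (g₁ : Good I₁) (g₂ : Good I₂)
    (g₃ : Good I₃) : Good (cyc I₁ I₂ I₃ p₁ l₁ p₂ l₂ p₃ l₃) := by
  set J := cyc I₁ I₂ I₃ p₁ l₁ p₂ l₂ p₃ l₃ with hJ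
  have A1 : ∀ a m, I₁ a m → ¬ (a = p₁ ∧ m = l₁) → J (.inl a) (.inl m) := fun a m h h' => ⟨h, h'⟩
  have A2 : ∀ a m, I₂ a m → ¬ (a = p₂ ∧ m = l₂) → J (.inr (.inl a)) (.inr (.inl m)) :=
    fun a m h h' => ⟨h, h'⟩
  have A3 : ∀ a m, I₃ a m → ¬ (a = p₃ ∧ m = l₃) → J (.inr (.inr a)) (.inr (.inr m)) :=
    fun a m h h' => ⟨h, h'⟩
  have B1 : J (.inr (.inr p₃)) (.inl l₁) := ⟨rfl, rfl⟩
  have B2 : J (.inl p₁) (.inr (.inl l₂)) := ⟨rfl, rfl⟩
  have B3 : J (.inr (.inl p₂)) (.inr (.inr l₃)) := ⟨rfl, rfl⟩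
  have C1 : ∀ x m, J x (.inl m) → (∃ a, x = .inl a ∧ I₁ a m ∧ ¬ (a = p₁ ∧ m = l₁)) ∨
      (x = .inr (.inr p₃) ∧ m = l₁) := by
    rintro (x | x | x) m hx
    · exact Or.inl ⟨x, rfl, hx.1, hx.2⟩
    · exact hx.elim
    · exact Or.inr ⟨by rw [hx.1], hx.2⟩
  have C2 : ∀ x m, J x (.inr (.inl m)) → (∃ a, x = .inr (.inl a) ∧ I₂ a m ∧ ¬ (a = p₂ ∧ m = l₂)) ∨
      (x = .inl p₁ ∧ m = l₂) := by
    rintro (x | x | x) m hx
    · exact Or.inr ⟨by rw [hx.1], hx.2⟩
    · exact Or.inl ⟨x, rfl, hx.1, hx.2⟩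
    · exact hx.elim
  have C3 : ∀ x m, J x (.inr (.inr m)) → (∃ a, x = .inr (.inr a) ∧ I₃ a m ∧ ¬ (a = p₃ ∧ m = l₃)) ∨
      (x = .inr (.inl p₂) ∧ m = l₃) := by
    rintro (x | x | x) m hx
    · exact hx.elim
    · exact Or.inr ⟨by rw [hx.1], hx.2⟩
    · exact Or.inl ⟨x, rfl, hx.1, hx.2⟩
  refine ⟨?_, ?_, ?_, ?_, ?_⟩
  · rintro (m | m | m)
    · by_cases h : m = l₁
      · subst h; exact ⟨_, B1⟩
      · obtain ⟨a, ha⟩ := g₁.n m
        exact ⟨_, A1 a m ha (fun h' => h h'.2)⟩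
    · by_cases h : m = l₂
      · subst h; exact ⟨_, B2⟩
      · obtain ⟨a, ha⟩ := g₂.n m
        exact ⟨_, A2 a m ha (fun h' => h h'.2)⟩
    · by_cases h : m = l₃
      · subst h; exact ⟨_, B3⟩
      · obtain ⟨a, ha⟩ := g₃.n m
        exact ⟨_, A3 a m ha (fun h' => h h'.2)⟩
  · rintro (m | m | m) x hx
    · exact piece_s g₁ p₁ l₁ h₁ J Sum.inl Sum.inl _ Sum.inl_injective (by simp) A1 B1 C1 m x hx
    · exact piece_s g₂ p₂ l₂ h₂ J (fun a => .inr (.inl a)) (fun a => .inr (.inl a)) _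
        (Sum.inr_injective.comp Sum.inl_injective) (by simp) A2 B2 C2 m x hx
    · exact piece_s g₃ p₃ l₃ h₃ J (fun a => .inr (.inr a)) (fun a => .inr (.inr a)) _
        (Sum.inr_injective.comp Sum.inr_injective) (by simp) A3 B3 C3 m x hx
  · rintro (r | r | r) c hc
    · exact piece_p g₂ p₂ l₂ h₂ J (fun a => .inr (.inl a)) (fun a => .inr (.inl a)) A2 c
        (fun m a b ha hb hab => hc _ _ _ ha hb (by simpa using hab) (by simp) (by simp))
    · exact piece_p g₁ p₁ l₁ h₁ J Sum.inl Sum.inl A1 c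
        (fun m a b ha hb hab => hc _ _ _ ha hb (by simpa using hab) (by simp) (by simp))
    · exact piece_p g₁ p₁ l₁ h₁ J Sum.inl Sum.inl A1 c
        (fun m a b ha hb hab => hc _ _ _ ha hb (by simpa using hab) (by simp) (by simp))
  · rintro (r | r | r) c hc
    · exact (piece_p g₂ p₂ l₂ h₂ J (fun a => .inr (.inl a)) (fun a => .inr (.inl a)) A2 c
        (fun m a b ha hb hab => hc (.inr (.inl m)) (by simp) _ _ ha hb (by simpa using hab))).elim
    · exact (piece_p g₁ p₁ l₁ h₁ J Sum.inl Sum.inl A1 c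
        (fun m a b ha hb hab => hc (.inl m) (by simp) _ _ ha hb (by simpa using hab))).elim
    · exact (piece_p g₁ p₁ l₁ h₁ J Sum.inl Sum.inl A1 c
        (fun m a b ha hb hab => hc (.inl m) (by simp) _ _ ha hb (by simpa using hab))).elim
  · intro c
    by_contra hc
    push Not at hc
    have w1 := piece_w g₁ p₁ l₁ h₁ J Sum.inl Sum.inl _ Sum.inl_injective (by simp) A1 B1 C1 c
      (fun m => hc _)
    have w2 := piece_w g₂ p₂ l₂ h₂ J (fun a => .inr (.inl a)) (fun a => .inr (.inl a)) _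
        (Sum.inr_injective.comp Sum.inl_injective) (by simp) A2 B2 C2 c (fun m => hc _)
    have w3 := piece_w g₃ p₃ l₃ h₃ J (fun a => .inr (.inr a)) (fun a => .inr (.inr a)) _
        (Sum.inr_injective.comp Sum.inr_injective) (by simp) A3 B3 C3 c (fun m => hc _)
    revert w1 w2 w3
    generalize c (.inl p₁) = x
    generalize c (.inr (.inl p₂)) = y
    generalize c (.inr (.inr p₃)) = z
    cases x <;> cases y <;> cases z <;> simp

theorem good_built {P L : Type} {I : P → L → Prop} (h : Built P L I) : Good I := by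
  induction h with
  | fano => exact good_fano
  | iso P L P' L' I I' e f h _ ih => exact good_iso e f h ih
  | star P₁ L₁ P₂ L₂ I₁ I₂ p l σ _ _ ih1 ih2 => exact good_star ih1 ih2
  | cyc P₁ L₁ P₂ L₂ P₃ L₃ I₁ I₂ I₃ p₁ l₁ p₂ l₂ p₃ l₃ h1 h2 h3 _ _ _ ih1 ih2 ih3 =>
    exact good_cyc h1 h2 h3 ih1 ih2 ih3

theorem no_weak {P L : Type} {I : P → L → Prop} (g : Good I) : ¬ Weak I 2 := by
  rintro ⟨c, hc⟩
  obtain ⟨m, hm⟩ := g.w (fun a => decide (c a = 0))
  obtain ⟨a, b, ha, hb, hab⟩ := hc m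
  have := hm a b ha hb
  apply hab
  simp only [decide_eq_decide] at this
  by_cases h : c a = 0
  · rw [h, this.1 h]
  · have h' : c b ≠ 0 := fun h' => h (this.2 h')
    omega

theorem strong_mono {P L : Type} {I : P → L → Prop} {j k : ℕ} (h : j ≤ k) (hs : Strong I j) :
    Strong I k := by
  obtain ⟨c, hc⟩ := hs
  exact ⟨fun a => Fin.castLE h (c a), fun m a b ha hb hab e => hc m a b ha hb hab
    (Fin.castLE_injective h e)⟩

theorem weak_mono {P L : Type} {I : P → L → Prop} {j k : ℕ} (h : j ≤ k) (hs : Weak I j) :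
    Weak I k := by
  obtain ⟨c, hc⟩ := hs
  refine ⟨fun a => Fin.castLE h (c a), fun m => ?_⟩
  obtain ⟨a, b, ha, hb, hab⟩ := hc m
  exact ⟨a, b, ha, hb, fun e => hab (Fin.castLE_injective h e)⟩

/-- Let `I` be built from the Fano plane by star products and cyclic sums and `J` any incidence
structure.
(1) If `J` contains `I` minus one point `r`, then strong colourings of `J` need at least `6`
colours.
(2) If `J` contains `I` minus one line `l`, then in every strong `5`-colouring of `J` all points of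
`l` have the same colour.
(3) `I` has no weak colouring with fewer than `3` colours. -/
theorem result (P L : Type) (I : P → L → Prop) (hI : Built P L I) :
    (∀ (PP LL : Type) (J : PP → LL → Prop) (r : P) (f : P → PP) (k : L → LL),
      Set.InjOn f {a | a ≠ r} → (∀ a m, a ≠ r → I a m → J (f a) (k m)) →
      ∀ n, Strong J n → 6 ≤ n) ∧
    (∀ (PP LL : Type) (J : PP → LL → Prop) (l : L) (f : P → PP) (k : L → LL),
      Function.Injective f → (∀ a m, m ≠ l → I a m → J (f a) (k m)) →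
      ∀ c : PP → Fin 5, (∀ m a b, J a m → J b m → a ≠ b → c a ≠ c b) →
      ∀ a b, I a l → I b l → c (f a) = c (f b)) ∧
    (∀ n, Weak I n → 3 ≤ n) := by
  have g := good_built hI
  refine ⟨?_, ?_, ?_⟩
  · intro PP LL J r f k hf hJ n hn
    by_contra hlt
    obtain ⟨c, hc⟩ := strong_mono (show n ≤ 5 by omega) hn
    refine g.hp r (fun a => c (f a)) ?_
    intro m a b ha hb hab har hbr
    exact hc (k m) (f a) (f b) (hJ a m har ha) (hJ b m hbr hb) (fun e => hab (hf har hbr e))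
  · intro PP LL J l f k hf hJ c hc
    refine g.hl l (fun a => c (f a)) ?_
    intro m hm a b ha hb hab
    exact hc (k m) (f a) (f b) (hJ a m hm ha) (hJ b m hm hb) (hf.ne hab)
  · intro n hn
    by_contra hlt
    exact no_weak g (weak_mono (by omega) hn)

end Pool.Agent.Results.MP_cb5629_co.NoStrongFive
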